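import Pool.Agent.helper62.RP.Spec

set_option autoImplicit false

open Polynomial Filter
open Pool.Agent.QU

namespace Pool.Agent.RP

/-- `SC` passes to subgroups. -/
theorem SCH (h1 : PUS_stmt) (h2 : SUB_stmt) : SCH_stmt := by
  classical
  intro G H _ _ ι hι hSC S ε hε
  filter_upwards [hSC (S.image (push ι)) ε hε] with N hN
  obtain ⟨σ, hσ⟩ := hN
  refine ⟨σ.comp ι, ?_⟩
  intro a ha v hv
  obtain ⟨-, -, -, -, -, -, h7, h8⟩ := h1 H G ι a a
  rw [h8 N σ, h7 (EuclideanSpace ℂ (Fin N)) (permRep σ)]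
  refine (hσ (push ι a) (Finset.mem_image_of_mem _ ha) v hv).trans ?_
  exact mul_le_mul_of_nonneg_right (by linarith [h2 G H ι hι a]) (norm_nonneg _)

end Pool.Agent.RP
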